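import Mathlib

set_option autoImplicit false

/-!
Sums of distinct factorials: the sum determines the set, and few sums are powers with a large
exponent.
-/

namespace Pool.Agent.DFP

open Finset

theorem sum_factorial_lt (N : ℕ) : ∑ n ∈ Finset.Icc 1 N, n.factorial < (N + 1).factorial := by
  induction N with
  | zero => simp
  | succ N ih =>
    rw [Finset.sum_Icc_succ_top (by omega)]
    have h : (N + 1 + 1).factorial = (N + 1 + 1) * (N + 1).factorial := Nat.factorial_succ _
    rw [h]
    nlinarith [Nat.factorial_pos (N + 1)]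

theorem sum_lt_of_lt {S : Finset ℕ} {M : ℕ} (hS : 0 ∉ S) (h : ∀ n ∈ S, n < M) :
    ∑ n ∈ S, n.factorial < M.factorial := by
  rcases Nat.eq_zero_or_pos M with rfl | hM
  · have : S = ∅ := by
      rw [Finset.eq_empty_iff_forall_notMem]
      intro x hx
      exact absurd (h x hx) (by omega)
    rw [this]
    simp
  · obtain ⟨N, rfl⟩ : ∃ N, M = N + 1 := ⟨M - 1, by omega⟩
    refine lt_of_le_of_lt ?_ (sum_factorial_lt N)
    apply Finset.sum_le_sum_of_subset
    intro x hx
    rw [Finset.mem_Icc]
    have h1 := h x hx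
    have h2 : x ≠ 0 := fun h0 => hS (h0 ▸ hx)
    omega

/-- If the largest difference of two sets belongs to the first one, the first sum is larger. -/
theorem sum_lt_sum {S T : Finset ℕ} (hT : 0 ∉ T) {M : ℕ} (hMS : M ∈ S) (hMT : M ∉ T)
    (hM : ∀ n, M < n → (n ∈ S ↔ n ∈ T)) :
    ∑ n ∈ T, n.factorial < ∑ n ∈ S, n.factorial := by
  classical
  have e1 : ∑ n ∈ S, n.factorial = ∑ n ∈ S.filter (fun n => M < n), n.factorial +
      ∑ n ∈ S.filter (fun n => ¬ M < n), n.factorial :=
    (Finset.sum_filter_add_sum_filter_not S _ _).symm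
  have e2 : ∑ n ∈ T, n.factorial = ∑ n ∈ T.filter (fun n => M < n), n.factorial +
      ∑ n ∈ T.filter (fun n => ¬ M < n), n.factorial :=
    (Finset.sum_filter_add_sum_filter_not T _ _).symm
  have e3 : S.filter (fun n => M < n) = T.filter (fun n => M < n) := by
    ext n
    rw [Finset.mem_filter, Finset.mem_filter]
    constructor
    · rintro ⟨h1, h2⟩
      exact ⟨(hM n h2).mp h1, h2⟩
    · rintro ⟨h1, h2⟩
      exact ⟨(hM n h2).mpr h1, h2⟩
  have e4 : M.factorial ≤ ∑ n ∈ S.filter (fun n => ¬ M < n), n.factorial := by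
    apply Finset.single_le_sum (f := fun n : ℕ => n.factorial) (fun _ _ => Nat.zero_le _)
    rw [Finset.mem_filter]
    exact ⟨hMS, lt_irrefl _⟩
  have e5 : ∑ n ∈ T.filter (fun n => ¬ M < n), n.factorial < M.factorial := by
    apply sum_lt_of_lt
    · rw [Finset.mem_filter]
      exact fun h => hT h.1
    · intro n hn
      rw [Finset.mem_filter] at hn
      have : n ≠ M := fun h => hMT (h ▸ hn.1)
      omega
  rw [e1, e2, e3]
  omega

theorem sum_inj : Set.InjOn (fun S : Finset ℕ => ∑ n ∈ S, n.factorial) {S | 0 ∉ S} := by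
  classical
  intro S hS T hT h
  simp only at h
  by_contra hne
  have hsd : (symmDiff S T).Nonempty := by
    rw [Finset.nonempty_iff_ne_empty]
    intro h0
    exact hne (symmDiff_eq_bot.mp (by rw [h0]; rfl))
  set M := (symmDiff S T).max' hsd with hM
  have hMm : M ∈ symmDiff S T := Finset.max'_mem _ _
  have hagree : ∀ n, M < n → (n ∈ S ↔ n ∈ T) := by
    intro n hn
    have h1 : n ∉ symmDiff S T := fun h2 => absurd (Finset.le_max' _ _ h2) (by omega)
    rw [Finset.mem_symmDiff] at h1
    tauto
  rw [Finset.mem_symmDiff] at hMm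
  rcases hMm with ⟨h1, h2⟩ | ⟨h1, h2⟩
  · have := sum_lt_sum hT h1 h2 hagree
    omega
  · have := sum_lt_sum hS h1 h2 (fun n hn => (hagree n hn).symm)
    omega

end Pool.Agent.DFP
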